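import Mathlib

set_option autoImplicit false

namespace Pool.Agent.K7.H80.MD

open Finset Filter

open Classical in
/-- Probability of the event `A` for the random graph `G(n,p)`. -/
noncomputable def Pr (n : ℕ) (p : ℝ) (A : SimpleGraph (Fin n) → Prop) : ℝ :=
  ∑ G ∈ (univ : Finset (SimpleGraph (Fin n))).filter (fun G => A G),
    p ^ G.edgeFinset.card * (1 - p) ^ (n.choose 2 - G.edgeFinset.card)

/-- `W` is a multiset resolving set of `G`. -/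
def Resolving {n : ℕ} (G : SimpleGraph (Fin n)) (W : Finset (Fin n)) : Prop :=
  ∀ u v : Fin n, u ≠ v →
    Multiset.map (fun w => G.dist u w) W.val ≠ Multiset.map (fun w => G.dist v w) W.val

open Classical in
/-- number of neighbours of `v` in `W` -/
noncomputable def nbr {n : ℕ} (G : SimpleGraph (Fin n)) (W : Finset (Fin n)) (v : Fin n) : ℕ :=
  (W.filter fun u => G.Adj v u).card

open Classical in
/-- number of 2-walks from `v` to `W` -/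
noncomputable def walk2 {n : ℕ} (G : SimpleGraph (Fin n)) (W : Finset (Fin n)) (v : Fin n) : ℕ :=
  ∑ u ∈ univ.filter (fun u => G.Adj v u), nbr G W u

open Classical in
/-- number of vertices of `W` at distance 2 from `v` -/
noncomputable def two {n : ℕ} (G : SimpleGraph (Fin n)) (W : Finset (Fin n)) (v : Fin n) : ℕ :=
  (W.filter fun w => G.dist v w = 2).card

open Classical in
/-- triangles at `v` (ordered) plus 4-cycles through `v` (ordered) -/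
noncomputable def TM {n : ℕ} (G : SimpleGraph (Fin n)) (v : Fin n) : ℕ :=
  (univ.filter fun q : Fin n × Fin n => G.Adj v q.1 ∧ G.Adj q.1 q.2 ∧ G.Adj q.2 v).card +
  (univ.filter fun q : Fin n × Fin n × Fin n => q.1 ≠ q.2.1 ∧ q.2.2 ≠ v ∧ G.Adj v q.1 ∧
    G.Adj q.1 q.2.2 ∧ G.Adj q.2.2 q.2.1 ∧ G.Adj q.2.1 v).card

/-- mixing property -/
def Mix {n : ℕ} (G : SimpleGraph (Fin n)) (p : ℝ) : Prop := ∀ U W : Finset (Fin n),
  |(∑ u ∈ U, (nbr G W u : ℝ)) - p * U.card * W.card| ≤ 7 * n * Real.sqrt (n * p)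

open Classical in
/-- PROD: the edges are independent. -/
def StProd : Prop := ∀ (n : ℕ) (p : ℝ) (f h : Sym2 (Fin n) → ℝ),
  ∑ G : SimpleGraph (Fin n), (p ^ G.edgeFinset.card * (1 - p) ^ (n.choose 2 - G.edgeFinset.card)) *
    ((∏ e ∈ G.edgeFinset, f e) *
      ∏ e ∈ (univ.filter fun e : Sym2 (Fin n) => ¬ e.IsDiag) \ G.edgeFinset, h e) =
  ∏ e ∈ univ.filter (fun e : Sym2 (Fin n) => ¬ e.IsDiag), (p * f e + (1 - p) * h e)

/-- MIX (Chernoff + union bound over the `4^n` pairs) -/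
def StMix : Prop := ∀ (n : ℕ) (p : ℝ), 1 ≤ n → 0 < p → p ≤ 1 → 1 ≤ n * p →
  Pr n p (fun G => ¬ Mix G p) ≤ 2 * (1 / 2) ^ n

/-- DEG -/
def StDeg : Prop := ∀ (n : ℕ) (p : ℝ), 1 ≤ n → 0 ≤ p → p ≤ 1 →
  Pr n p (fun G => ∃ v, 8 * n * p < nbr G univ v) ≤ n * Real.exp (-(4 * n * p))

/-- DIAM -/
def StDiam : Prop := ∀ (n : ℕ) (p : ℝ), 6 ≤ n → 0 ≤ p → p ≤ 1 →
  Pr n p (fun G => ∃ u v : Fin n, ¬ (G.Reachable u v ∧ G.dist u v ≤ 3)) ≤
    (n : ℝ) ^ 2 * (2 * Real.exp (-(n * p / 16)) + Real.exp (-(p * (n * p / 16) ^ 2)))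

/-- MULT -/
def StMult : Prop := ∀ (n : ℕ) (p R : ℝ), 1 ≤ n → 0 ≤ p → p ≤ 1 → 0 < R →
  Pr n p (fun G => (n : ℝ) * R < ∑ v, (TM G v : ℝ)) ≤ ((n : ℝ) ^ 2 * p ^ 3 + (n : ℝ) ^ 3 * p ^ 4) / R

open Classical in
/-- DA: degrees into `W` are concentrated for most vertices -/
def StA : Prop := ∀ (n : ℕ) (p : ℝ) (G : SimpleGraph (Fin n)), 0 < p → 1 ≤ n * p → Mix G p →
  ∀ W : Finset (Fin n), ((univ.filter fun v : Fin n =>
    56 * Real.sqrt (n * p) < |(nbr G W v : ℝ) - p * W.card|).card : ℝ) ≤ n / 4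

open Classical in
/-- DB: 2-walks into `W` are concentrated for most vertices -/
def StB : Prop := ∀ (n : ℕ) (p : ℝ) (G : SimpleGraph (Fin n)), 0 < p → 1 ≤ n * p → Mix G p →
  (∀ v, (nbr G univ v : ℝ) ≤ 8 * n * p) →
  ∀ W : Finset (Fin n), ∃ c : ℝ, ((univ.filter fun v : Fin n =>
    1064 * (n * p) * Real.sqrt (n * p) < |(walk2 G W v : ℝ) - c|).card : ℝ) ≤ n / 4

/-- DC: distance-two counts versus 2-walks -/
def StC : Prop := ∀ (n : ℕ) (G : SimpleGraph (Fin n)) (W : Finset (Fin n)) (v : Fin n),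
  two G W v ≤ walk2 G W v ∧ walk2 G W v ≤ two G W v + nbr G univ v + TM G v

/-- DET: the deterministic statement -/
def StDet : Prop := ∀ (n : ℕ) (p R : ℝ) (G : SimpleGraph (Fin n)), 0 < p → 1 ≤ n * p → 0 < R →
  Mix G p → (∀ v, (nbr G univ v : ℝ) ≤ 8 * n * p) →
  (∀ u v : Fin n, G.Reachable u v ∧ G.dist u v ≤ 3) →
  (∑ v, (TM G v : ℝ)) ≤ n * R →
  10 ^ 7 * (Real.sqrt (n * p) + 1) * ((n * p) * Real.sqrt (n * p) + n * p + R + 1) < n →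
  ¬ ∃ W : Finset (Fin n), Resolving G W

/-- ASY -/
def StAsy : Prop := ∀ x : ℝ, 1 / 3 < x → x < 4 / 9 → ∃ R : ℕ → ℝ,
  (∀ᶠ n : ℕ in atTop, 0 < (n : ℝ) ^ x / (n - 1) ∧ (n : ℝ) ^ x / (n - 1) ≤ 1 ∧
    1 ≤ n * ((n : ℝ) ^ x / (n - 1)) ∧ 0 < R n ∧
    10 ^ 7 * (Real.sqrt (n * ((n : ℝ) ^ x / (n - 1))) + 1) *
      ((n * ((n : ℝ) ^ x / (n - 1))) * Real.sqrt (n * ((n : ℝ) ^ x / (n - 1))) +
        n * ((n : ℝ) ^ x / (n - 1)) + R n + 1) < n) ∧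
  Tendsto (fun n : ℕ => 2 * (1 / 2 : ℝ) ^ n + n * Real.exp (-(4 * n * ((n : ℝ) ^ x / (n - 1)))) +
    (n : ℝ) ^ 2 * (2 * Real.exp (-(n * ((n : ℝ) ^ x / (n - 1)) / 16)) +
      Real.exp (-(((n : ℝ) ^ x / (n - 1)) * (n * ((n : ℝ) ^ x / (n - 1)) / 16) ^ 2))) +
    ((n : ℝ) ^ 2 * ((n : ℝ) ^ x / (n - 1)) ^ 3 + (n : ℝ) ^ 3 * ((n : ℝ) ^ x / (n - 1)) ^ 4) / R n)
    atTop (nhds 0)

/-- MAIN -/
def StMain : Prop := ∀ x : ℝ, 1 / 3 < x → x < 4 / 9 →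
  Tendsto (fun n : ℕ => Pr n ((n : ℝ) ^ x / (n - 1))
    (fun G => G.Connected ∧ ∃ W : Finset (Fin n), Resolving G W)) atTop (nhds 0)

end Pool.Agent.K7.H80.MD
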