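import Pool.Agent.K7.H80.MD.Stm
import Pool.Agent.K7.H20.MD_ASY
import Pool.Agent.K7.H92.MD_DA
import Pool.Agent.K7.H15.MD_DB
import Pool.Agent.K7.H78.MD_DC
import Pool.Agent.K7.H79.MD_DEG
import Pool.Agent.K7.H3.MD_DET
import Pool.Agent.K7.H12.MD_DIAM
import Pool.Agent.K7.H37.MD_MIX
import Pool.Agent.K7.H90.MD_MULT
import Pool.Agent.K7.H77.MD_PROD

set_option autoImplicit false

namespace Pool.Agent.K7.H80.MD

open Finset Filter

theorem Pr_nonneg {n : ℕ} {p : ℝ} (hp0 : 0 ≤ p) (hp1 : p ≤ 1) (A : SimpleGraph (Fin n) → Prop) :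
    0 ≤ Pr n p A := by
  unfold Pr
  refine sum_nonneg fun G _ => ?_
  have : 0 ≤ 1 - p := by linarith
  positivity

theorem Pr_or {n : ℕ} {p : ℝ} (hp0 : 0 ≤ p) (hp1 : p ≤ 1)
    (A B C : SimpleGraph (Fin n) → Prop) (h : ∀ G, A G → B G ∨ C G) :
    Pr n p A ≤ Pr n p B + Pr n p C := by
  classical
  unfold Pr
  have h1 : 0 ≤ 1 - p := by linarith
  rw [sum_filter, sum_filter, sum_filter, ← sum_add_distrib]
  refine sum_le_sum fun G _ => ?_
  have hw : (0:ℝ) ≤ p ^ G.edgeFinset.card * (1 - p) ^ (n.choose 2 - G.edgeFinset.card) := by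
    positivity
  by_cases hA : A G
  · rcases h G hA with hB | hC
    · rw [if_pos hA, if_pos hB]
      split_ifs <;> linarith
    · rw [if_pos hA, if_pos hC]
      split_ifs <;> linarith
  · rw [if_neg hA]
    split_ifs <;> linarith

theorem main (hMix : StMix) (hDeg : StDeg) (hDiam : StDiam) (hMult : StMult) (hDet : StDet)
    (hAsy : StAsy) : StMain := by
  intro x hx1 hx2
  obtain ⟨R, hev, hlim⟩ := hAsy x hx1 hx2
  refine tendsto_of_tendsto_of_tendsto_of_le_of_le' tendsto_const_nhds hlim ?_ ?_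
  · filter_upwards [hev] with n hn
    exact Pr_nonneg hn.1.le hn.2.1 _
  · filter_upwards [hev, eventually_ge_atTop 6] with n hn hn6
    obtain ⟨hp0, hp1, hnp, hR, hnum⟩ := hn
    have m1 := hMix n _ (by omega) hp0 hp1 hnp
    have m2 := hDeg n _ (by omega) hp0.le hp1
    have m3 := hDiam n _ hn6 hp0.le hp1
    have m4 := hMult n _ (R n) (by omega) hp0.le hp1 hR
    set p : ℝ := (n : ℝ) ^ x / (n - 1) with hp
    have step3 := Pr_or (n := n) hp0.le hp1
      (fun G => (∃ u v : Fin n, ¬ (G.Reachable u v ∧ G.dist u v ≤ 3)) ∨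
        (n : ℝ) * R n < ∑ v, (TM G v : ℝ)) _ _ (fun G h => h)
    have step2 := Pr_or (n := n) hp0.le hp1
      (fun G => (∃ v, 8 * n * p < nbr G univ v) ∨
        ((∃ u v : Fin n, ¬ (G.Reachable u v ∧ G.dist u v ≤ 3)) ∨
        (n : ℝ) * R n < ∑ v, (TM G v : ℝ))) _ _ (fun G h => h)
    have step1 := Pr_or (n := n) hp0.le hp1
      (fun G => G.Connected ∧ ∃ W : Finset (Fin n), Resolving G W)
      (fun G => ¬ Mix G p)
      (fun G => (∃ v, 8 * n * p < nbr G univ v) ∨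
        ((∃ u v : Fin n, ¬ (G.Reachable u v ∧ G.dist u v ≤ 3)) ∨
        (n : ℝ) * R n < ∑ v, (TM G v : ℝ)))
      (fun G hG => by
        by_contra hcon
        push Not at hcon
        obtain ⟨c1, c2, c3, c4⟩ := hcon
        exact hDet n p (R n) G hp0 hnp hR c1 c2 c3 c4 hnum hG.2)
    linarith

end Pool.Agent.K7.H80.MD
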